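import Pool.Agent.Lib.MP_554556_an.Comp

set_option autoImplicit false

namespace Pool.Agent.Lib.MP_554556_an.Old.RootDefinite

open Pool.Agent.Lib.MP_554556_an

/-- If the system is stably bounded and its companion matrix `C` is invertible, then every root
subspace of `C` is `GC`-positive or `GC`-negative. -/
theorem result (n l : ℕ) (_hn : 1 ≤ n) (hl : 1 ≤ l)
    (A : Fin (l + 1) → Matrix (Fin n) (Fin n) (Quaternion ℝ)) (hA : Symm A)
    (hU : IsUnit (A (Fin.last l))) (hS : StablyBounded A) (hC : IsUnit (companion A))
    (lam : Quaternion ℝ) (hlam : IsEigenvalue (companion A) lam) :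
    IsPositive (Gmat A * companion A) (rootSubspace (companion A) lam) ∨
      IsNegative (Gmat A * companion A) (rootSubspace (companion A) lam) := by
  obtain ⟨m, rfl⟩ : ∃ m, l = m + 1 := ⟨l - 1, by omega⟩
  exact main A hA hU hS hC lam hlam

end Pool.Agent.Lib.MP_554556_an.Old.RootDefinite
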